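import Pool.Agent.R196.SP.Pieces

/-!
# SP1: elementary facts on `serve`, `ins`, `G`
-/

set_option autoImplicit false

namespace Pool.Agent.R196.SP

namespace P1x

theorem ins_perm (Q : Queue) (i : ℕ) (w : ℝ) : (ins i w Q).Perm ((i, w) :: Q) := by
  induction Q with
  | nil => exact List.Perm.refl _
  | cons q Q ih =>
    obtain ⟨j, r⟩ := q
    unfold ins
    split_ifs with h
    · exact List.Perm.refl _
    · exact (List.Perm.cons _ ih).trans (List.Perm.swap _ _ _)

theorem SQ_cons {i : ℕ} {r : ℝ} {Q : Queue} :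
    SQ ((i, r) :: Q) ↔ (∀ b ∈ Q, r ≤ b.2) ∧ 0 < r ∧ SQ Q := by
  unfold SQ
  rw [List.pairwise_cons]
  constructor
  · rintro ⟨⟨h1, h2⟩, h3⟩
    exact ⟨h1, h3 _ List.mem_cons_self, h2, fun q hq => h3 q (List.mem_cons_of_mem _ hq)⟩
  · rintro ⟨h1, h2, h3, h4⟩
    refine ⟨⟨h1, h3⟩, fun q hq => ?_⟩
    rcases List.mem_cons.1 hq with rfl | hq
    · exact h2
    · exact h4 q hq

theorem a1 (Q : Queue) : ∀ x : ℝ, 0 ≤ x → SQ Q → SQ (serve x Q) := by
  induction Q with
  | nil => intro x _ h; exact h
  | cons q Q ih =>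
    obtain ⟨j, r⟩ := q
    intro x hx h
    obtain ⟨h1, h2, h3⟩ := SQ_cons.1 h
    unfold serve
    split_ifs with h4
    · exact SQ_cons.2 ⟨fun b hb => by linarith [h1 b hb], by linarith, h3⟩
    · exact ih _ (by linarith) h3

theorem a2 (Q : Queue) (i : ℕ) (w : ℝ) (hw : 0 < w) : SQ Q → SQ (ins i w Q) := by
  induction Q with
  | nil =>
    intro _
    exact SQ_cons.2 ⟨fun b hb => absurd hb List.not_mem_nil, hw, List.Pairwise.nil,
      fun q hq => absurd hq List.not_mem_nil⟩
  | cons q Q ih =>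
    obtain ⟨j, r⟩ := q
    intro h
    obtain ⟨h1, h2, h3⟩ := SQ_cons.1 h
    unfold ins
    split_ifs with h4
    · refine SQ_cons.2 ⟨fun b hb => ?_, hw, h⟩
      rcases List.mem_cons.1 hb with rfl | hb
      · exact h4.le
      · linarith [h1 b hb]
    · refine SQ_cons.2 ⟨fun b hb => ?_, h2, ih h3⟩
      rcases List.mem_cons.1 ((ins_perm Q i w).subset hb) with rfl | hb
      · exact not_lt.1 h4
      · exact h1 b hb

theorem a4 (Q : Queue) : ∀ x : ℝ, (ids (serve x Q)).Sublist (ids Q) := by
  induction Q with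
  | nil => intro x; exact List.Sublist.refl _
  | cons q Q ih =>
    obtain ⟨j, r⟩ := q
    intro x
    unfold serve
    split_ifs with h4
    · exact List.Sublist.refl _
    · exact (ih (x - r)).cons _

theorem a5 (Q : Queue) : ∀ x y : ℝ, 0 ≤ x → 0 ≤ y →
    serve (x + y) Q = serve y (serve x Q) := by
  induction Q with
  | nil => intro x y _ _; rfl
  | cons q Q ih =>
    obtain ⟨j, r⟩ := q
    intro x y hx hy
    by_cases h1 : x < r
    · have e1 : serve x ((j, r) :: Q) = (j, r - x) :: Q := by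
        rw [serve, if_pos h1]
      rw [e1, serve, serve]
      by_cases h2 : x + y < r
      · rw [if_pos h2, if_pos (by linarith : y < r - x)]
        congr 2
        ring
      · rw [if_neg h2, if_neg (by linarith : ¬ y < r - x)]
        congr 1
        ring
    · have e1 : serve x ((j, r) :: Q) = serve (x - r) Q := by
        rw [serve, if_neg h1]
      rw [e1, serve, if_neg (by linarith : ¬ x + y < r), ← ih (x - r) y (by linarith) hy]
      congr 1
      ring

theorem G_cons (w : ℝ) (j : ℕ) (r : ℝ) (Q : Queue) : G w ((j, r) :: Q) = min r w + G w Q := by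
  unfold G
  rw [List.map_cons, List.sum_cons]

theorem a7 (Q : Queue) : ∀ x w : ℝ, 0 ≤ x → 0 ≤ w → SQ Q → G w Q ≤ G w (serve x Q) + x := by
  induction Q with
  | nil =>
    intro x w hx _ _
    change G w [] ≤ G w [] + x
    linarith
  | cons q Q ih =>
    obtain ⟨j, r⟩ := q
    intro x w hx hw h
    obtain ⟨h1, h2, h3⟩ := SQ_cons.1 h
    by_cases h4 : x < r
    · rw [serve, if_pos h4, G_cons, G_cons]
      have : min r w ≤ min (r - x) w + x := by
        rcases le_total (r - x) w with h5 | h5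
        · rw [min_eq_left h5]
          linarith [min_le_left r w]
        · rw [min_eq_right h5]
          linarith [min_le_right r w]
      linarith
    · rw [serve, if_neg h4, G_cons]
      have h5 := ih (x - r) w (by linarith) hw h3
      linarith [min_le_left r w]

theorem a8 (Q : Queue) (i : ℕ) (u w : ℝ) (hu : 0 ≤ u) (hw : 0 ≤ w) : G w Q ≤ G w (ins i u Q) := by
  have h1 : G w (ins i u Q) = G w ((i, u) :: Q) :=
    List.Perm.sum_eq (List.Perm.map (fun q : ℕ × ℝ => min q.2 w) (ins_perm Q i u))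
  rw [h1, G_cons]
  linarith [le_min hu hw]

theorem a9 (Q : Queue) (w : ℝ) : G w Q ≤ w * Q.length := by
  induction Q with
  | nil =>
    unfold G
    simp
  | cons q Q ih =>
    obtain ⟨j, r⟩ := q
    rw [G_cons, List.length_cons]
    push_cast
    linarith [min_le_right r w]

end P1x

open P1x in
/-- SP1 -/
theorem p1 : P1 := by
  refine ⟨fun Q x hx h => a1 Q x hx h, fun Q i w hw h => a2 Q i w hw h, fun Q i w => ?_,
    fun Q x => a4 Q x, fun Q x y hx hy => a5 Q x y hx hy, fun Q h => ?_,
    fun Q x w hx hw h => a7 Q x w hx hw h, fun Q i u w hu hw => a8 Q i u w hu hw,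
    fun Q w => a9 Q w⟩
  · exact (ins_perm Q i w).map Prod.fst
  · match Q, h with
    | [], _ => rfl
    | (j, r) :: Q, h =>
      obtain ⟨-, h2, -⟩ := SQ_cons.1 h
      rw [serve, if_pos h2, sub_zero]

end Pool.Agent.R196.SP
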